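import Pool.Agent.Y184.NT.Base

/-!
# Project NT: trace formula, degrees of the restriction and of the Jacobian (job NT-Jac, part 1)
-/

set_option autoImplicit false
set_option linter.unusedSectionVars false

open Polynomial Module

namespace Pool.Agent.Y692.NT

open Pool.Agent.Y184.NT

section trace

variable {L K : Type} [Field L] [Field K] [CharZero L] [Algebra L K] [FiniteDimensional L K]

/-- Euler's formula -/
theorem euler_trace {τ : K} (hτ : Algebra.adjoin L {τ} = ⊤) {i : ℕ} (hi : i < finrank L K) :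
    Algebra.trace L K (τ ^ i / aeval τ (derivative (minpoly L τ))) =
      if i = finrank L K - 1 then 1 else 0 := by
  classical
  have h1 := sum_smul_minpolyDiv_eq_X_pow (K := L) (L := K) (AlgebraicClosure L) hτ hi
  have hint : IsIntegral L τ := Algebra.IsIntegral.isIntegral τ
  have hdeg : (minpoly L τ).natDegree = finrank L K := by
    have h2 := (PowerBasis.ofAdjoinEqTop hint hτ).finrank
    have h3 : (PowerBasis.ofAdjoinEqTop hint hτ).dim = (minpoly L τ).natDegree := rfl
    rw [h2, h3]
  have hnd : (minpolyDiv L τ).natDegree = finrank L K - 1 := by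
    rw [natDegree_minpolyDiv, hdeg]
  have hc : (minpolyDiv L τ).coeff (finrank L K - 1) = 1 := by
    have := minpolyDiv_monic hint
    rw [Monic, leadingCoeff, hnd] at this
    exact this
  have h2 := congrArg (fun p => p.coeff (finrank L K - 1)) h1
  simp only [finsetSum_coeff, coeff_map, coeff_smul, smul_eq_mul, hc, mul_one, coeff_X_pow] at h2
  have h3 : algebraMap L (AlgebraicClosure L)
      (Algebra.trace L K (τ ^ i / aeval τ (derivative (minpoly L τ)))) =
      algebraMap L (AlgebraicClosure L) (if i = finrank L K - 1 then 1 else 0) := by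
    rw [trace_eq_sum_embeddings (AlgebraicClosure L)]
    refine h2.trans ?_
    by_cases hir : i = finrank L K - 1
    · rw [if_pos hir, if_pos hir.symm, map_one]
    · rw [if_neg hir, if_neg (fun h => hir h.symm), map_zero]
  exact (algebraMap L (AlgebraicClosure L)).injective h3

/-- vanishing traces make the degree drop -/
theorem degree_drop {τ : K} (hτ : Algebra.adjoin L {τ} = ⊤) {m : ℕ} {U : L[X]}
    (hU : U.natDegree < finrank L K) (hU0 : U ≠ 0)
    (htr : ∀ i ≤ m, Algebra.trace L K
      (τ ^ i * (aeval τ U / aeval τ (derivative (minpoly L τ)))) = 0) :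
    U.natDegree + m + 2 ≤ finrank L K := by
  by_contra hcon
  set r := finrank L K with hr
  set i := r - 1 - U.natDegree with hi
  have him : i ≤ m := by omega
  have h1 := htr i him
  rw [aeval_eq_sum_range, Finset.sum_div, Finset.mul_sum, map_sum] at h1
  rw [Finset.sum_eq_single U.natDegree] at h1
  · have h2 : τ ^ i * (U.coeff U.natDegree • τ ^ U.natDegree / aeval τ (derivative (minpoly L τ))) =
        U.coeff U.natDegree • (τ ^ (r - 1) / aeval τ (derivative (minpoly L τ))) := by
      rw [Algebra.smul_def, Algebra.smul_def]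
      have : r - 1 = i + U.natDegree := by omega
      rw [this, pow_add]
      ring
    rw [h2, map_smul, euler_trace hτ (by omega), if_pos rfl, smul_eq_mul, mul_one] at h1
    exact hU0 (leadingCoeff_eq_zero.1 h1)
  · intro k hk hk'
    rw [Finset.mem_range] at hk
    have h2 : τ ^ i * (U.coeff k • τ ^ k / aeval τ (derivative (minpoly L τ))) =
        U.coeff k • (τ ^ (i + k) / aeval τ (derivative (minpoly L τ))) := by
      rw [Algebra.smul_def, Algebra.smul_def, pow_add]
      ring
    rw [h2, map_smul, euler_trace hτ (by omega), if_neg (by omega), smul_zero]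
  · intro h2
    exact absurd (Finset.mem_range.2 (Nat.lt_succ_self _)) h2

end trace

section deg

variable {L : Type} [Field L] [Algebra ℂ L]

theorem coeff_prod_le {ι : Type} (s : Finset ι) (f : ι → L[X]) (e : ι → ℕ)
    (h : ∀ i ∈ s, (f i).natDegree ≤ e i) : (∏ i ∈ s, f i).natDegree ≤ ∑ i ∈ s, e i ∧
      (∏ i ∈ s, f i).coeff (∑ i ∈ s, e i) = ∏ i ∈ s, (f i).coeff (e i) := by
  classical
  induction s using Finset.induction_on with
  | empty => simp
  | insert a s ha ih =>
    obtain ⟨h1, h2⟩ := ih fun i hi => h i (Finset.mem_insert_of_mem hi)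
    have h3 := h a (Finset.mem_insert_self a s)
    rw [Finset.prod_insert ha, Finset.sum_insert ha, Finset.prod_insert ha]
    refine ⟨natDegree_mul_le.trans (add_le_add h3 h1), ?_⟩
    rw [coeff_mul_add_eq_of_natDegree_le h3 h1, h2]

theorem natDegree_lin {N : ℕ} (a b : Fin N → L) (j : Fin N) : (lin a b j).natDegree ≤ 1 := by
  unfold lin
  refine (natDegree_add_le _ _).trans (max_le ?_ ?_)
  · rw [natDegree_C]
    exact Nat.zero_le _
  · refine natDegree_mul_le.trans ?_
    rw [natDegree_C, add_zero]
    exact natDegree_X_le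

theorem coeff_lin {N : ℕ} (a b : Fin N → L) (j : Fin N) : (lin a b j).coeff 1 = b j := by
  unfold lin
  rw [coeff_add, coeff_C, if_neg (by norm_num), zero_add, mul_comm, coeff_C_mul, coeff_X_one,
    mul_one]

/-- the restriction to the line has degree `d` and leading coefficient `F(b)` -/
theorem restr_coeff {N d : ℕ} {F : MvPolynomial (Fin N) ℂ} (hF : F.IsHomogeneous d)
    (a b : Fin N → L) : (restr F a b).natDegree ≤ d ∧
      (restr F a b).coeff d = MvPolynomial.aeval b F := by
  classical
  have hkey : ∀ α ∈ F.support,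
      (algebraMap ℂ L[X] (F.coeff α) * ∏ i, lin a b i ^ α i).natDegree ≤ d ∧
      (algebraMap ℂ L[X] (F.coeff α) * ∏ i, lin a b i ^ α i).coeff d =
        algebraMap ℂ L (F.coeff α) * ∏ i, b i ^ α i := by
    intro α hα
    have hd : ∑ i, α i = d := by
      have h1 := hF (MvPolynomial.mem_support_iff.1 hα)
      rw [Finsupp.weight_apply, Finsupp.sum_fintype] at h1
      · simpa using h1
      · intro i
        simp
    have h2 := coeff_prod_le Finset.univ (fun i => lin a b i ^ α i) (fun i => α i) (fun i _ => by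
      refine natDegree_pow_le.trans ?_
      have := natDegree_lin a b i
      nlinarith)
    rw [hd] at h2
    have e1 : algebraMap ℂ L[X] (F.coeff α) = C (algebraMap ℂ L (F.coeff α)) := rfl
    rw [e1]
    constructor
    · refine natDegree_mul_le.trans ?_
      rw [natDegree_C, zero_add]
      exact h2.1
    · rw [coeff_C_mul, h2.2]
      congr 1
      refine Finset.prod_congr rfl fun i _ => ?_
      have h3 := coeff_pow_of_natDegree_le (m := α i) (natDegree_lin a b i)
      rw [mul_one, coeff_lin] at h3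
      exact h3
  unfold restr
  rw [MvPolynomial.aeval_def, MvPolynomial.eval₂_eq', MvPolynomial.aeval_def,
    MvPolynomial.eval₂_eq']
  constructor
  · exact natDegree_sum_le_of_forall_le _ _ fun α hα => (hkey α hα).1
  · rw [finsetSum_coeff]
    exact Finset.sum_congr rfl fun α hα => (hkey α hα).2

end deg

section mat

/-- a matrix with two special rows -/
def mat3 {A : Type} {n : ℕ} (c x : Fin (n + 2) → A) (R : Fin n → Fin (n + 2) → A) :
    Matrix (Fin (n + 2)) (Fin (n + 2)) A :=
  Matrix.of (Fin.cons c (Fin.cons x R : Fin (n + 1) → Fin (n + 2) → A))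

variable {A : Type} [CommRing A] {n : ℕ}

theorem mat3_zero (c x : Fin (n + 2) → A) (R : Fin n → Fin (n + 2) → A) (j : Fin (n + 2)) :
    mat3 c x R 0 j = c j := rfl

theorem mat3_one (c x : Fin (n + 2) → A) (R : Fin n → Fin (n + 2) → A) (j : Fin (n + 2)) :
    mat3 c x R (Fin.succ 0) j = x j := rfl

theorem mat3_ss (c x : Fin (n + 2) → A) (R : Fin n → Fin (n + 2) → A) (i : Fin n)
    (j : Fin (n + 2)) : mat3 c x R i.succ.succ j = R i j := rfl

/-- the determinant is linear in the first row -/
theorem mat3_lin (x : Fin (n + 2) → A) (R : Fin n → Fin (n + 2) → A) :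
    ∃ κ : Fin (n + 2) → A, ∀ c, (mat3 c x R).det = ∑ j, c j * κ j := by
  refine ⟨fun j => (-1) ^ (j : ℕ) * ((mat3 0 x R).submatrix Fin.succ j.succAbove).det,
    fun c => ?_⟩
  rw [Matrix.det_succ_row_zero]
  refine Finset.sum_congr rfl fun j _ => ?_
  rw [mat3_zero]
  have : (mat3 c x R).submatrix Fin.succ j.succAbove =
      (mat3 0 x R).submatrix Fin.succ j.succAbove := rfl
  rw [this]
  ring

theorem mat3_sub (c c' x : Fin (n + 2) → A) (R : Fin n → Fin (n + 2) → A) :
    (mat3 (c - c') x R).det = (mat3 c x R).det - (mat3 c' x R).det := by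
  obtain ⟨κ, hκ⟩ := mat3_lin x R
  rw [hκ, hκ, hκ, ← Finset.sum_sub_distrib]
  refine Finset.sum_congr rfl fun j _ => ?_
  rw [Pi.sub_apply, sub_mul]

theorem mat3_smul (s : A) (c x : Fin (n + 2) → A) (R : Fin n → Fin (n + 2) → A) :
    (mat3 (s • c) x R).det = s * (mat3 c x R).det := by
  obtain ⟨κ, hκ⟩ := mat3_lin x R
  rw [hκ, hκ, Finset.mul_sum]
  refine Finset.sum_congr rfl fun j _ => ?_
  rw [Pi.smul_apply, smul_eq_mul, mul_assoc]

theorem mat3_swap (c x : Fin (n + 2) → A) (R : Fin n → Fin (n + 2) → A) :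
    (mat3 c x R).det = -(mat3 x c R).det := by
  have h1 : mat3 c x R = (mat3 x c R).submatrix (Equiv.swap (0 : Fin (n + 2)) (Fin.succ 0)) id := by
    ext i j
    rw [Matrix.submatrix_apply, id]
    refine Fin.cases ?_ (fun i => ?_) i
    · rw [Equiv.swap_apply_left]
      rfl
    · refine Fin.cases ?_ (fun i => ?_) i
      · rw [Equiv.swap_apply_right]
        rfl
      · rw [Equiv.swap_apply_of_ne_of_ne (Fin.succ_ne_zero _)
          (fun h => Fin.succ_ne_zero _ (Fin.succ_injective _ h))]
        rfl
  rw [h1, Matrix.det_permute, Equiv.Perm.sign_swap (Fin.succ_ne_zero 0).symm]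
  simp

/-- adding multiples of the first row to the rows `≥ 2` -/
theorem mat3_add (c x : Fin (n + 2) → A) (R : Fin n → Fin (n + 2) → A) (s : Fin n → A) :
    (mat3 c x fun i j => R i j + s i * c j).det = (mat3 c x R).det := by
  refine Matrix.det_eq_of_forall_row_eq_smul_add_const
    (Fin.cons 0 (Fin.cons 0 s : Fin (n + 1) → A) : Fin (n + 2) → A) 0 rfl fun i j => ?_
  refine Fin.cases ?_ (fun i => ?_) i
  · rw [Fin.cons_zero, zero_mul, add_zero]
    rfl
  · refine Fin.cases ?_ (fun i => ?_) i
    · rw [Fin.cons_succ, Fin.cons_zero, zero_mul, add_zero]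
      rfl
    · rw [Fin.cons_succ, Fin.cons_succ]
      rfl

/-- adding a multiple of the second row to the first -/
theorem mat3_add0 (c x : Fin (n + 2) → A) (R : Fin n → Fin (n + 2) → A) (s : A) :
    (mat3 (fun j => c j + s * x j) x R).det = (mat3 c x R).det := by
  refine Matrix.det_eq_of_forall_row_eq_smul_add_const
    (Fin.cons s 0 : Fin (n + 2) → A) (Fin.succ 0) rfl fun i j => ?_
  refine Fin.cases ?_ (fun i => ?_) i
  · rw [Fin.cons_zero]
    rfl
  · rw [Fin.cons_succ, Pi.zero_apply, zero_mul, add_zero]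
    refine Fin.cases rfl (fun i => rfl) i

end mat

section jac

variable {L : Type} [Field L] [Algebra ℂ L] {n : ℕ}

theorem jac_eq (E : Fin n → Derivation ℂ L L) (a b : Fin (n + 2) → L) :
    jac E a b = (mat3 (fun j => C (a j)) (fun j => C (b j))
      (fun i => lin (fun j => E i (a j)) (fun j => E i (b j)))).det := by
  rw [← mat3_add0 _ _ _ X]
  rfl

theorem natDegree_mat3 (c x : Fin (n + 2) → L[X]) (R : Fin n → Fin (n + 2) → L[X])
    (hc : ∀ j, (c j).natDegree ≤ 0) (hx : ∀ j, (x j).natDegree ≤ 0)
    (hR : ∀ i j, (R i j).natDegree ≤ 1) : (mat3 c x R).det.natDegree ≤ n := by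
  classical
  obtain ⟨e, he0, he1, he⟩ : ∃ e : Fin (n + 2) → ℕ, e 0 = 0 ∧ e (Fin.succ 0) = 0 ∧
      ∀ i : Fin n, e i.succ.succ = 1 :=
    ⟨Fin.cons 0 (Fin.cons 0 fun _ => 1 : Fin (n + 1) → ℕ), rfl, rfl, fun _ => rfl⟩
  have h1 : ∀ i j, (mat3 c x R i j).natDegree ≤ e i := by
    intro i j
    refine Fin.cases ?_ (fun i => ?_) i
    · rw [he0]
      exact hc j
    · refine Fin.cases ?_ (fun i => ?_) i
      · rw [he1]
        exact hx j
      · rw [he]
        exact hR i j
  rw [Matrix.det_apply]
  refine natDegree_sum_le_of_forall_le _ _ fun σ _ => ?_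
  refine (natDegree_smul_le _ _).trans ?_
  have h2 : ∑ i, e (σ i) = n := by
    rw [Equiv.sum_comp σ e, Fin.sum_univ_succ, Fin.sum_univ_succ, he0, he1,
      Finset.sum_congr rfl fun i _ => he i]
    simp
  calc (∏ i, mat3 c x R (σ i) i).natDegree ≤ ∑ i, (mat3 c x R (σ i) i).natDegree :=
        natDegree_prod_le _ _
    _ ≤ ∑ i, e (σ i) := Finset.sum_le_sum fun i _ => h1 _ _
    _ = n := h2

theorem natDegree_jac (E : Fin n → Derivation ℂ L L) (a b : Fin (n + 2) → L) :
    (jac E a b).natDegree ≤ n := by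
  rw [jac_eq]
  refine natDegree_mat3 _ _ _ (fun j => (natDegree_C (a j)).le) (fun j => (natDegree_C (b j)).le)
    fun i j => ?_
  exact natDegree_lin (fun j => E i (a j)) (fun j => E i (b j)) j

end jac

end Pool.Agent.Y692.NT
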