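import Pool.Agent.Y184.NT.St
import Pool.Agent.Y692.NT.JacA

/-!
# Project NT: the residual points are foci (job NT-Jac)
-/

set_option autoImplicit false
set_option linter.unusedSectionVars false

open Polynomial Module

namespace Pool.Agent.Y692.NT

open Pool.Agent.Y184.NT

/-- chain rule -/
theorem der_mv {A : Type} [CommRing A] [Algebra ℂ A] {N : ℕ} (D : Derivation ℂ A A)
    (x : Fin N → A) (F : MvPolynomial (Fin N) ℂ) : D (MvPolynomial.aeval x F) =
      ∑ l, MvPolynomial.aeval x (MvPolynomial.pderiv l F) * D (x l) := by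
  classical
  induction F using MvPolynomial.induction_on with
  | C c =>
    rw [MvPolynomial.aeval_C, Derivation.map_algebraMap]
    symm
    refine Finset.sum_eq_zero fun l _ => ?_
    rw [MvPolynomial.pderiv_C, map_zero, zero_mul]
  | add p q hp hq =>
    rw [map_add, map_add, hp, hq, ← Finset.sum_add_distrib]
    refine Finset.sum_congr rfl fun l _ => ?_
    rw [map_add, map_add, add_mul]
  | mul_X p i hp =>
    rw [map_mul, Derivation.leibniz, hp, MvPolynomial.aeval_X]
    have h1 : ∀ l, MvPolynomial.aeval x (MvPolynomial.pderiv l (p * MvPolynomial.X i)) * D (x l) =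
        (if l = i then MvPolynomial.aeval x p * D (x l) else 0) +
          x i * (MvPolynomial.aeval x (MvPolynomial.pderiv l p) * D (x l)) := by
      intro l
      rw [Derivation.leibniz, MvPolynomial.pderiv_X]
      by_cases hl : l = i
      · subst hl
        rw [Pi.single_eq_same, if_pos rfl, smul_eq_mul, smul_eq_mul, map_add, map_mul, map_mul,
          map_one, MvPolynomial.aeval_X]
        ring
      · rw [Pi.single_eq_of_ne (fun h => hl h.symm), if_neg hl, smul_eq_mul, smul_eq_mul, map_add,
          map_mul, map_mul, map_zero, MvPolynomial.aeval_X]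
        ring
    rw [Finset.sum_congr rfl fun l _ => h1 l, Finset.sum_add_distrib, Finset.sum_ite_eq',
      if_pos (Finset.mem_univ i), ← Finset.mul_sum, smul_eq_mul, smul_eq_mul]

/-- Euler's identity -/
theorem euler_mv {A : Type} [CommRing A] [Algebra ℂ A] {N d : ℕ} {F : MvPolynomial (Fin N) ℂ}
    (hF : F.IsHomogeneous d) (x : Fin N → A) :
    ∑ l, MvPolynomial.aeval x (MvPolynomial.pderiv l F) * x l = d * MvPolynomial.aeval x F := by
  have h1 := hF.sum_X_mul_pderiv
  have h2 := congrArg (MvPolynomial.aeval x) h1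
  rw [map_sum, map_nsmul, nsmul_eq_mul] at h2
  rw [← h2]
  refine Finset.sum_congr rfl fun l _ => ?_
  rw [map_mul, MvPolynomial.aeval_X, mul_comm]

/-- the determinant vanishes if the rows are orthogonal to a vector -/
theorem det_zero {A : Type} [Field A] {n : ℕ} (g c x : Fin (n + 2) → A)
    (R : Fin n → Fin (n + 2) → A) (hg : g ≠ 0) (hc : ∑ l, g l * c l = 0)
    (hx : ∑ l, g l * x l = 0) (hR : ∀ i, ∑ l, g l * R i l = 0) : (mat3 c x R).det = 0 := by
  rw [← Matrix.exists_mulVec_eq_zero_iff]
  refine ⟨g, hg, ?_⟩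
  ext i
  rw [Matrix.mulVec, dotProduct, Pi.zero_apply]
  have h1 : ∀ v : Fin (n + 2) → A, ∑ l, v l * g l = ∑ l, g l * v l := fun v =>
    Finset.sum_congr rfl fun l _ => mul_comm _ _
  refine Fin.cases ?_ (fun i => ?_) i
  · exact (h1 c).trans hc
  · refine Fin.cases ?_ (fun i => ?_) i
    · exact (h1 x).trans hx
    · exact (h1 (R i)).trans (hR i)

section

variable {L K : Type} [Field L] [Field K] [Algebra ℂ L] [Algebra ℂ K] [Algebra L K]
  [IsScalarTower ℂ L K]

theorem aeval_lin {N : ℕ} {a b : Fin N → L} {τ : K} {x : Fin N → K}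
    (hx : ∀ j, x j = algebraMap L K (a j) + τ * algebraMap L K (b j))
    (G : MvPolynomial (Fin N) ℂ) :
    aeval τ (MvPolynomial.aeval (lin a b) G) = MvPolynomial.aeval x G := by
  have h1 : ((aeval τ : L[X] →ₐ[L] K).restrictScalars ℂ).comp (MvPolynomial.aeval (lin a b)) =
      MvPolynomial.aeval x := by
    apply MvPolynomial.algHom_ext
    intro j
    rw [AlgHom.comp_apply, MvPolynomial.aeval_X, MvPolynomial.aeval_X, hx]
    change aeval τ (lin a b j) = _
    unfold lin
    rw [map_add, map_mul, aeval_C, aeval_X, aeval_C]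
  exact congrArg (fun f => f G) h1

theorem exists_dual {N : ℕ} {a b : Fin N → L} (hab : LinearIndependent L ![a, b]) :
    (∃ w : Fin N → L, ∑ j, w j * a j = 1 ∧ ∑ j, w j * b j = 0) ∧
    (∃ w : Fin N → L, ∑ j, w j * a j = 0 ∧ ∑ j, w j * b j = 1) := by
  classical
  have hinj : LinearMap.ker (Fintype.linearCombination L ![a, b]) = ⊥ :=
    LinearMap.ker_eq_bot.2 (hab.fintypeLinearCombination_injective)
  obtain ⟨g, hg⟩ := LinearMap.exists_leftInverse_of_injective _ hinj
  have hga : g a = Pi.single 0 1 := by
    have h1 := congrArg (fun f => f (Pi.single 0 1)) hg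
    simp only [LinearMap.comp_apply, LinearMap.id_apply] at h1
    rw [Fintype.linearCombination_apply_single, one_smul] at h1
    exact h1
  have hgb : g b = Pi.single 1 1 := by
    have h1 := congrArg (fun f => f (Pi.single 1 1)) hg
    simp only [LinearMap.comp_apply, LinearMap.id_apply] at h1
    rw [Fintype.linearCombination_apply_single, one_smul] at h1
    exact h1
  have hexp : ∀ (v : Fin N → L) (i : Fin 2), ∑ j, g (Pi.single j 1) i * v j = g v i := by
    intro v i
    have h1 : v = ∑ j, v j • (Pi.single j (1 : L) : Fin N → L) := by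
      conv_lhs => rw [← Finset.univ_sum_single v]
      refine Finset.sum_congr rfl fun j _ => ?_
      rw [← Pi.single_smul, smul_eq_mul, mul_one]
    conv_rhs => rw [h1, map_sum, Finset.sum_apply]
    refine Finset.sum_congr rfl fun j _ => ?_
    rw [map_smul, Pi.smul_apply, smul_eq_mul, mul_comm]
  refine ⟨⟨fun j => g (Pi.single j 1) 0, ?_, ?_⟩, ⟨fun j => g (Pi.single j 1) 1, ?_, ?_⟩⟩
  · rw [hexp, hga]; simp
  · rw [hexp, hgb]; simp
  · rw [hexp, hga]; simp
  · rw [hexp, hgb]; simp

end

theorem t_Jac : StJac := by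
  intro L K _ _ _ _ _ _ _ n d m F hF hmd hnd a b hab hFb τ hτ hr x hx hFx E E' hE' c hc hdet htr
  classical
  have : CharZero L := charZero_of_injective_algebraMap (algebraMap ℂ L).injective
  have : CharZero K := charZero_of_injective_algebraMap (algebraMap ℂ K).injective
  set r := finrank L K with hrdef
  have hint : IsIntegral L τ := Algebra.IsIntegral.isIntegral τ
  have hτ' : Algebra.adjoin L {τ} = ⊤ := by
    rw [← IntermediateField.adjoin_simple_toSubalgebra_of_isAlgebraic hint.isAlgebraic, hτ]
    rfl
  set g₀ := minpoly L τ with hg₀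
  have hg₀deg : g₀.natDegree = r := by
    have h2 := (PowerBasis.ofAdjoinEqTop hint hτ').finrank
    have h3 : (PowerBasis.ofAdjoinEqTop hint hτ').dim = (minpoly L τ).natDegree := rfl
    rw [hrdef, h2, h3]
  have hg₀0 : g₀ ≠ 0 := minpoly.ne_zero hint
  -- the restriction
  set P := restr F a b with hP
  have hPτ : aeval τ P = 0 := by
    rw [hP]
    unfold restr
    rw [aeval_lin hx, hFx]
  obtain ⟨hPd, hPc⟩ := restr_coeff hF a b
  have hP0 : P ≠ 0 := by
    intro h0
    rw [← hPc, ← hP, h0, coeff_zero] at hFb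
    exact hFb rfl
  have hPdeg : P.natDegree = d := by
    refine le_antisymm hPd (le_natDegree_of_ne_zero ?_)
    rw [hP, hPc]
    exact hFb
  obtain ⟨h, hh⟩ := minpoly.dvd L τ hPτ
  have hh0 : h ≠ 0 := by
    rintro rfl
    rw [mul_zero] at hh
    exact hP0 hh
  have hhdeg : r + h.natDegree = d := by
    rw [← hPdeg, hh, natDegree_mul hg₀0 hh0, hg₀deg]
  have hhτ : aeval τ h ≠ 0 := by
    intro h0
    have h1 := natDegree_le_of_dvd (minpoly.dvd L τ h0) hh0
    rw [← hg₀, hg₀deg] at h1
    omega
  have hg₀' : aeval τ (derivative g₀) ≠ 0 :=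
    (minpoly.irreducible hint).separable.aeval_derivative_ne_zero (minpoly.aeval L τ)
  have hP' : aeval τ (derivative P) = aeval τ (derivative g₀) * aeval τ h := by
    rw [hh, derivative_mul, map_add, map_mul, map_mul, minpoly.aeval, zero_mul, add_zero]
  have hP'0 : aeval τ (derivative P) ≠ 0 := by
    rw [hP']
    exact mul_ne_zero hg₀' hhτ
  -- the gradient
  set g : Fin (n + 2) → K := fun l => MvPolynomial.aeval x (MvPolynomial.pderiv l F) with hg
  have hg0 : g ≠ 0 := by
    intro h0
    have h1 : ∑ l, g l * c l = 1 := hc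
    rw [h0] at h1
    simp at h1
  have hchain : ∑ l, g l * algebraMap L K (b l) = aeval τ (derivative P) := by
    have h1 := der_mv ((Polynomial.derivative' (R := L)).restrictScalars ℂ) (lin a b) F
    have h2 : ((Polynomial.derivative' (R := L)).restrictScalars ℂ) (MvPolynomial.aeval (lin a b) F) =
        derivative P := rfl
    rw [h2] at h1
    rw [h1, map_sum]
    refine Finset.sum_congr rfl fun l _ => ?_
    rw [map_mul, aeval_lin hx]
    congr 1
    have h3 : ((Polynomial.derivative' (R := L)).restrictScalars ℂ) (lin a b l) =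
        derivative (lin a b l) := rfl
    rw [h3]
    unfold lin
    rw [derivative_add, derivative_C, zero_add, derivative_mul, derivative_X, derivative_C, one_mul,
      mul_zero, add_zero, aeval_C]
  have hgx : ∑ l, g l * x l = 0 := by
    have := euler_mv hF x
    rw [hFx, mul_zero] at this
    exact this
  have hgD : ∀ i, ∑ l, g l * E' i (x l) = 0 := by
    intro i
    have := der_mv (E' i) x F
    rw [hFx, map_zero] at this
    exact this.symm
  -- the first row can be replaced
  set P' := aeval τ (derivative P) with hP'def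
  set bK : Fin (n + 2) → K := fun l => algebraMap L K (b l) with hbK
  have hrows : (rows c x E').det = (mat3 (P'⁻¹ • bK) x fun i j => E' i (x j)).det := by
    have h1 : (mat3 (c - P'⁻¹ • bK) x fun i j => E' i (x j)).det = 0 := by
      refine det_zero g _ _ _ hg0 ?_ hgx hgD
      have h2 : ∑ l, g l * (c - P'⁻¹ • bK) l = ∑ l, g l * c l - P'⁻¹ * ∑ l, g l * bK l := by
        rw [Finset.mul_sum, ← Finset.sum_sub_distrib]
        refine Finset.sum_congr rfl fun l _ => ?_
        rw [Pi.sub_apply, Pi.smul_apply, smul_eq_mul]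
        ring
      rw [h2]
      have h3 : ∑ l, g l * c l = 1 := hc
      rw [h3, hbK]
      simp only
      rw [hchain, inv_mul_cancel₀ hP'0, sub_self]
    rw [mat3_sub, sub_eq_zero] at h1
    exact h1
  -- the Jacobian
  set J := jac E a b with hJ
  have hJτ : aeval τ J = (mat3 x bK fun i j => algebraMap L K (E i (a j)) +
      τ * algebraMap L K (E i (b j))).det := by
    rw [hJ]
    have h1 : jac E a b = (mat3 (lin a b) (fun j => C (b j))
      (fun i => lin (fun j => E i (a j)) (fun j => E i (b j)))).det := rfl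
    rw [h1]
    have h2 := AlgHom.map_det (aeval τ : L[X] →ₐ[L] K) (mat3 (lin a b) (fun j => C (b j))
      (fun i => lin (fun j => E i (a j)) (fun j => E i (b j))))
    rw [h2]
    congr 1
    ext i j
    rw [AlgHom.mapMatrix_apply, Matrix.map_apply]
    have hl : ∀ u v : Fin (n + 2) → L, aeval τ (lin u v j) =
        algebraMap L K (u j) + τ * algebraMap L K (v j) := by
      intro u v
      unfold lin
      rw [map_add, map_mul, aeval_C, aeval_X, aeval_C]
    refine Fin.cases ?_ (fun i => ?_) i
    · rw [mat3_zero, mat3_zero, hl, hx]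
    · refine Fin.cases ?_ (fun i => ?_) i
      · rw [mat3_one, mat3_one, aeval_C]
      · rw [mat3_ss, mat3_ss, hl]
  have hdetJ : (rows c x E').det = -(aeval τ J / (aeval τ (derivative g₀) * aeval τ h)) := by
    rw [hrows, mat3_smul, hJτ]
    have h1 : (fun i j => E' i (x j)) = fun (i : Fin n) (j : Fin (n + 2)) =>
        (algebraMap L K (E i (a j)) + τ * algebraMap L K (E i (b j))) + E' i τ * bK j := by
      funext i j
      rw [hx, map_add, Derivation.leibniz, hE', hE', smul_eq_mul, smul_eq_mul]
      ring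
    rw [h1, mat3_add, mat3_swap, ← hP']
    field_simp
  have hJτ0 : aeval τ J ≠ 0 := by
    intro h0
    rw [hdetJ, h0, zero_div, neg_zero] at hdet
    exact hdet rfl
  -- the traces
  set h₀ := (rows c x E').det with hh₀
  have htrw : ∀ w : Fin m → Fin (n + 2) → L,
      Algebra.trace L K ((∏ k, ∑ j, algebraMap L K (w k j) * x j) * h₀) = 0 := by
    intro w
    rw [Finset.prod_univ_sum, Finset.sum_mul, map_sum]
    refine Finset.sum_eq_zero fun f _ => ?_
    rw [Finset.prod_mul_distrib, ← map_prod, mul_assoc, ← Algebra.smul_def, map_smul, htr f,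
      smul_zero]
  obtain ⟨⟨w', hw'a, hw'b⟩, ⟨w'', hw''a, hw''b⟩⟩ := exists_dual hab
  have hlin : ∀ w : Fin (n + 2) → L, ∑ j, algebraMap L K (w j) * x j =
      algebraMap L K (∑ j, w j * a j) + τ * algebraMap L K (∑ j, w j * b j) := by
    intro w
    rw [map_sum, map_sum, Finset.mul_sum, ← Finset.sum_add_distrib]
    refine Finset.sum_congr rfl fun j _ => ?_
    rw [hx, map_mul, map_mul]
    ring
  have htrτ : ∀ i ≤ m, Algebra.trace L K (τ ^ i * h₀) = 0 := by
    intro i hi
    have h1 := htrw fun k => if (k : ℕ) < i then w'' else w'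
    have h2 : ∏ k : Fin m, ∑ j, algebraMap L K ((if (k : ℕ) < i then w'' else w') j) * x j =
        τ ^ i := by
      have h3 : ∀ k : Fin m, ∑ j, algebraMap L K ((if (k : ℕ) < i then w'' else w') j) * x j =
          if (k : ℕ) < i then τ else 1 := by
        intro k
        split_ifs
        · rw [hlin, hw''a, hw''b, map_zero, map_one, zero_add, mul_one]
        · rw [hlin, hw'a, hw'b, map_zero, map_one, mul_zero, add_zero]
      rw [Finset.prod_congr rfl fun k _ => h3 k, Finset.prod_ite, Finset.prod_const_one, mul_one,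
        Finset.prod_const]
      congr 1
      have h4 : (Finset.univ.filter fun k : Fin m => (k : ℕ) < i).card = i := by
        rw [Fin.card_filter_val_lt]
        omega
      exact h4
    rw [h2] at h1
    exact h1
  -- the polynomial `U`
  obtain ⟨U, hUdeg, hU⟩ : ∃ U : L[X], U.natDegree < r ∧ aeval τ U = aeval τ J / aeval τ h := by
    have h1 : aeval τ J / aeval τ h ∈ Algebra.adjoin L {τ} := by
      rw [hτ']
      exact Algebra.mem_top
    obtain ⟨V, hV⟩ := Algebra.adjoin_singleton_eq_range_aeval L τ ▸ h1
    refine ⟨V %ₘ g₀, ?_, ?_⟩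
    · rw [← hg₀deg]
      refine natDegree_modByMonic_lt _ (minpoly.monic hint) ?_
      intro h2
      have h3 := congrArg natDegree h2
      rw [hg₀deg, natDegree_one] at h3
      omega
    · rw [← hV]
      have h2 := modByMonic_add_div V g₀
      have h3 := congrArg (aeval τ) h2
      rw [map_add, map_mul, minpoly.aeval, zero_mul, add_zero] at h3
      exact h3
  have hU0 : U ≠ 0 := by
    rintro rfl
    rw [map_zero] at hU
    exact div_ne_zero hJτ0 hhτ hU.symm
  have hdrop := degree_drop hτ' (m := m) hUdeg hU0 (fun i hi => by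
    have h1 := htrτ i hi
    rw [hdetJ] at h1
    have h2 : τ ^ i * -(aeval τ J / (aeval τ (derivative g₀) * aeval τ h)) =
        -(τ ^ i * (aeval τ U / aeval τ (derivative (minpoly L τ)))) := by
      rw [hU, ← hg₀]
      field_simp
    rw [h2, map_neg, neg_eq_zero] at h1
    exact h1)
  -- conclusion
  have hJdeg : J.natDegree ≤ n := natDegree_jac E a b
  have hdiv : g₀ ∣ J - U * h := by
    refine minpoly.dvd L τ ?_
    rw [map_sub, map_mul, hU, div_mul_cancel₀ _ hhτ, sub_self]
  have hzero : J - U * h = 0 := by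
    by_contra hne
    have h1 := natDegree_le_of_dvd hdiv hne
    rw [hg₀deg] at h1
    have h2 : (J - U * h).natDegree ≤ n := by
      refine (natDegree_sub_le _ _).trans (max_le hJdeg ?_)
      rw [natDegree_mul hU0 hh0]
      omega
    omega
  refine ⟨h, hh, hhτ, ⟨U, ?_⟩, hJτ0⟩
  rw [sub_eq_zero] at hzero
  rw [hzero, mul_comm]

end Pool.Agent.Y692.NT
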