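import Pool.Agent.Y184.NT.St
import Pool.Agent.Y172.Cov3
import Pool.Agent.W619.PQ.Tr

/-!
# Project NT: traces of regular canonical forms are regular (job NT-Tr)
-/

set_option autoImplicit false
set_option linter.overlappingInstances false
set_option linter.unusedSectionVars false

open FF Polynomial Pool.Agent.W602.GT Pool.Agent.W603.LV Pool.Agent.W619.PQ Pool.Agent.Y172

namespace Pool.Agent.Y692.NT

section

variable {k K F : Type} [Field k] [Field K] [Field F] [Algebra k K] [Algebra k F] [Algebra K F]
  [IsScalarTower k K F]

/-- the ramification indices are bounded by the degree -/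
theorem over_le [CharZero k] [FiniteDimensional K F] {q : Place k K} {w : Place k F} {e : ℕ}
    (h : Over w q e) : e ≤ Module.finrank K F := by
  obtain ⟨S, T, hS, hT, hsum⟩ := exists_places_over (K' := F) q
  have hw := hS w e h
  obtain ⟨e', h', hTe, hTpos⟩ := hT w hw
  have he : e = e' := (Pool.Agent.Y172.over_unique' h h').2
  have h1 : T w ≤ Module.finrank K F := by
    rw [← hsum]
    exact Finset.single_le_sum (f := T) (fun _ _ => Nat.zero_le _) hw
  have h2 : e' ≤ T w := by
    refine Nat.le_of_dvd hTpos ?_
    rw [hTe]
    exact Dvd.intro _ rfl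
  omega

/-- the trace of an element vanishing at all the places over `q` vanishes at `q` -/
theorem trace_ge [CharZero k] [FiniteDimensional K F] (q : Place k K) (y : F)
    (hy : ∀ (w : Place k F) (e : ℕ), Over w q e → Ge w 1 y) :
    Ge q 1 (Algebra.trace K F y) := by
  classical
  let iA : Algebra q.O F := algO q
  let ik : Algebra k q.O := algk q
  obtain ⟨t, ht0, ht⟩ := q.surj
  have htr : q.Reg t := Or.inr (by omega)
  have htF : algebraMap K F t ≠ 0 := by simpa using ht0
  have : IsDiscreteValuationRing q.O := q.isDVR
  have : CharZero K := charZero_of_injective_algebraMap (algebraMap k K).injective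
  have : IsScalarTower q.O K F := IsScalarTower.of_algebraMap_eq fun _ => rfl
  have : IsScalarTower k q.O F := IsScalarTower.of_algebraMap_eq fun c => by
    rw [IsScalarTower.algebraMap_apply k K F]
    rfl
  let B := integralClosure q.O F
  have : IsDedekindDomain B := integralClosure.isDedekindDomain q.O K F
  have : IsFractionRing B F := integralClosure.isFractionRing_of_finite_extension K F
  have hfin : Module.Finite q.O B := IsIntegralClosure.finite q.O K F B
  have hinj : Function.Injective (algebraMap q.O F) := by
    rw [IsScalarTower.algebraMap_eq q.O K F]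
    exact (algebraMap K F).injective.comp (IsFractionRing.injective q.O K)
  have htf : Module.IsTorsionFree q.O B := by
    have hinj' : Function.Injective (algebraMap q.O B) := by
      intro a b h
      apply hinj
      rw [IsScalarTower.algebraMap_apply q.O B F, IsScalarTower.algebraMap_apply q.O B F, h]
    exact Module.isTorsionFree_iff_algebraMap_injective.2 hinj'
  have hfree : Module.Free q.O B := inferInstance
  -- `y` and `y ^ N / t` are integral
  have hyB : IsIntegral q.O y := isIntegral_of_reg q y fun w e hwe =>
    (hy w e hwe).mono (by norm_num)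
  set N : ℕ := Module.finrank K F with hN
  have hzB : IsIntegral q.O (y ^ N / algebraMap K F t) := by
    refine isIntegral_of_reg q _ fun w e hwe => ?_
    have h2 := (hy w e hwe).pow N
    by_cases h3 : y ^ N = 0
    · left; rw [h3, zero_div]
    · right
      rw [w.ord_div h3 htF, hwe.2, ht]
      have h4 := h2.resolve_left h3
      have h5 : (e : ℤ) ≤ N := by exact_mod_cast over_le hwe
      omega
  let yB : B := ⟨y, hyB⟩
  let zB : B := ⟨y ^ N / algebraMap K F t, hzB⟩
  let tA : q.O := ⟨t, htr⟩
  have hmul : yB ^ N = algebraMap q.O B tA * zB := by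
    apply Subtype.ext
    change y ^ N = algebraMap K F t * (y ^ N / algebraMap K F t)
    field_simp
  -- trace over the valuation ring
  have htrace : algebraMap q.O K (Algebra.trace q.O B yB) = Algebra.trace K F y := by
    rw [← Algebra.intTrace_eq_trace, Algebra.algebraMap_intTrace (L := F)]
    rfl
  rw [← htrace]
  change Ge q 1 ((Algebra.trace q.O B yB : q.O) : K)
  rw [← mem_maximalIdeal_iff]
  let p := IsLocalRing.maximalIdeal q.O
  let _ : Field (q.O ⧸ p) := Ideal.Quotient.field p
  have hq := Algebra.trace_quotient_mk (R := q.O) (S := B) yB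
  rw [← Ideal.Quotient.eq_zero_iff_mem, ← hq]
  have hnil : IsNilpotent (Algebra.lmul (q.O ⧸ p) (B ⧸ Ideal.map (algebraMap q.O B) p)
      (Ideal.Quotient.mk (Ideal.map (algebraMap q.O B) p) yB)) := by
    refine ⟨N, ?_⟩
    rw [← map_pow, ← map_pow]
    have h3 : (Ideal.Quotient.mk (Ideal.map (algebraMap q.O B) p)) (yB ^ N) = 0 := by
      rw [Ideal.Quotient.eq_zero_iff_mem, hmul]
      exact Ideal.mul_mem_right _ _ (Ideal.mem_map_of_mem _
        ((mem_maximalIdeal_iff q tA).2 (Or.inr ht.ge)))
    rw [h3, map_zero]
  exact (LinearMap.isNilpotent_trace_of_isNilpotent hnil).eq_zero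

/-- the trace of an element with mild poles is regular -/
theorem trace_reg [CharZero k] [FiniteDimensional K F] (q : Place k K) (f : F)
    (hf : ∀ (w : Place k F) (e : ℕ), Over w q e → Ge w (1 - e) f) :
    Ge q 0 (Algebra.trace K F f) := by
  obtain ⟨t, ht0, ht⟩ := q.surj
  have h1 : Ge q 1 (Algebra.trace K F (t • f)) := by
    refine trace_ge q _ fun w e hwe => ?_
    rw [Algebra.smul_def]
    have h2 : Ge w e (algebraMap K F t) := by
      right
      rw [hwe.2, ht, mul_one]
    have h3 := h2.mul (hf w e hwe)
    rwa [add_sub_cancel] at h3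
  rw [map_smul, smul_eq_mul] at h1
  rcases h1 with h1 | h1
  · left
    exact (mul_eq_zero.1 h1).resolve_left ht0
  · by_cases h0 : Algebra.trace K F f = 0
    · exact Or.inl h0
    · right
      rw [q.ord_mul ht0 h0, ht] at h1
      omega

end

section

variable {k K L : Type} [Field k] [CharZero k] [Field K] [Field L] [Algebra k K] [Algebra k L]
  [Algebra K L] [IsScalarTower k K L] [FiniteDimensional K L] [Algebra.EssFiniteType k K]
  [Algebra.EssFiniteType k L] {n : ℕ}

/-- the trace of a regular canonical form, with `K` the small field -/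
theorem trace_form (hn : Algebra.trdeg k K = n)
    (hzero : ∀ ω : (Fin n → Derivation k K K) → K, IsPluri 1 ω →
      (∀ P : Place k K, Divisorial n P → RegAt P ω) → ∀ D, ω D = 0)
    (W : (Fin n → Derivation k L L) → L) (hW : IsPluri 1 W)
    (hreg : ∀ Q : Place k L, Divisorial n Q → RegAt Q W) (E₀ : Fin n → Derivation k K K)
    (E₀' : Fin n → Derivation k L L)
    (hE₀' : ∀ i f, E₀' i (algebraMap K L f) = algebraMap K L (E₀ i f)) :
    Algebra.trace K L (W E₀') = 0 := by
  classical
  have hnL : Algebra.trdeg k L = n := trdeg_up (K := K) hn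
  obtain ⟨y, E, hy, hE⟩ := exists_crd hn
  choose E' hE' using fun i => exists_lift (L := L) hn (E i)
  have hyL : IsTranscendenceBasis k (fun j => algebraMap K L (y j)) := hy.algebraMap_comp
  have hEL := lift_dual hE hE'
  have hEv : (Matrix.of fun i j => E i (y j) : Matrix (Fin n) (Fin n) K).det = 1 := by
    have : (Matrix.of fun i j => E i (y j) : Matrix (Fin n) (Fin n) K) = 1 := by
      ext i j
      rw [Matrix.of_apply, hE, Matrix.one_apply]
    rw [this, Matrix.det_one]
  -- the form
  have hω := hzero (fun D => (Matrix.of fun i j => D i (y j) : Matrix (Fin n) (Fin n) K).det *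
    Algebra.trace K L (W E')) (by
      intro A D
      have e1 : (Matrix.of fun a b => (∑ j, A a j • D j) (y b)) =
          A * Matrix.of fun a b => D a (y b) := by
        ext a b
        rw [Matrix.of_apply, Matrix.mul_apply, sum_smul_apply]
        rfl
      change (Matrix.of fun a b => (∑ j, A a j • D j) (y b)).det * _ = _
      rw [e1, Matrix.det_mul, pow_one, mul_assoc]) (by
      intro P hP G hG
      obtain ⟨yP, EP, i0, hl⟩ := exists_loc hn hP
      choose EP' hEP' using fun i => exists_lift (L := L) hn (EP i)
      obtain ⟨B, hB⟩ : ∃ B : Matrix (Fin n) (Fin n) K, B = Matrix.of fun i j => E i (yP j) :=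
        ⟨_, rfl⟩
      have hC : (Matrix.of fun i j => G i (yP j) : Matrix (Fin n) (Fin n) K).det =
          (Matrix.of fun i j => G i (y j) : Matrix (Fin n) (Fin n) K).det * B.det := by
        rw [← Matrix.det_mul]
        congr 1
        ext i j
        rw [Matrix.of_apply, Matrix.mul_apply, hB]
        have h1 := Pool.Agent.W73.PG.PULL.expand y hy E hE (G i)
        conv_lhs => rw [← h1]
        rw [sum_smul_apply]
        rfl
      have hWB : W E' = algebraMap K L B.det * W EP' := by
        have h1 := pluri_coord (hl.bas.algebraMap_comp (A := L)) (lift_dual hl.dual hEP') hW E'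
        rw [h1, pow_one]
        congr 1
        rw [hB, RingHom.map_det]
        congr 1
        ext i j
        rw [Matrix.of_apply, RingHom.mapMatrix_apply, Matrix.map_apply, Matrix.of_apply]
        exact hE' i (yP j)
      have hval : (Matrix.of fun i j => G i (y j) : Matrix (Fin n) (Fin n) K).det *
          Algebra.trace K L (W E') =
          (Matrix.of fun i j => G i (yP j) : Matrix (Fin n) (Fin n) K).det *
            Algebra.trace K L (W EP') := by
        rw [hC, hWB, ← Algebra.smul_def, map_smul, smul_eq_mul]
        ring
      change P.Reg ((Matrix.of fun i j => G i (y j) : Matrix (Fin n) (Fin n) K).det *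
          Algebra.trace K L (W E'))
      rw [hval]
      refine P.reg_mul ?_ ?_
      · have h9 : Ge P 0 (Matrix.of fun i j => G i (yP j) : Matrix (Fin n) (Fin n) K).det :=
          ge_det P _ _ (fun _ _ => 0) (fun a b => hG a _ (hl.reg b)) fun σ => by simp
        exact h9
      · refine trace_reg P (W EP') fun Q e hQ => ?_
        have hQd : Divisorial n Q := divisorial_up hQ hP
        have h1 := down_ge hnL hQ hQd hl hEP' hW (c := 0) (fun G' hG' => by
          rcases hreg Q hQd G' hG' with h | h
          · exact Or.inl h
          · exact Or.inr (by exact_mod_cast h))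
        rcases h1 with h1 | h1
        · exact Or.inl h1
        · right
          have h2 : ((1 - e : ℤ) : ℝ) ≤ (Q.ord (W EP') : ℝ) := by
            push_cast
            push_cast at h1
            linarith
          exact_mod_cast h2)
  have h1 : Algebra.trace K L (W E') = 0 := by
    have h2 := hω E
    simp only [hEv, one_mul] at h2
    exact h2
  have h3 : W E₀' = algebraMap K L (Matrix.of fun i j => E₀ i (y j) : Matrix (Fin n) (Fin n) K).det *
      W E' := by
    have h4 := pluri_coord hyL hEL hW E₀'
    rw [h4, pow_one]
    congr 1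
    rw [RingHom.map_det]
    congr 1
    ext i j
    rw [Matrix.of_apply, RingHom.mapMatrix_apply, Matrix.map_apply, Matrix.of_apply]
    exact hE₀' i (y j)
  rw [h3, ← Algebra.smul_def, map_smul, h1, smul_zero]

end

theorem t_Tr : Pool.Agent.Y184.NT.StTr := by
  intro L K _ _ _ _ _ _ _ _ _ n hn hzero W hW hreg E E' hE'
  exact trace_form hn hzero W hW hreg E E' hE'

end Pool.Agent.Y692.NT
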